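import Mathlib
import Pool.Agent.H110.PC.Main

/-!
# A countably pracompact group whose square is not countably pracompact (in ZFC)

The group is Hausdorff, Boolean and a topological group (in particular a paratopological group).
This answers both questions of the problem in the negative.
-/

namespace Pool.Agent.Results.MP_6a90e0_al.Pracompact

open Topology

universe v

/-- `x` is an accumulation point of `B`: every neighbourhood of `x` contains infinitely many
points of `B`. -/
def IsAccumulationPoint {X : Type*} [TopologicalSpace X] (x : X) (B : Set X) : Prop :=
  ∀ U ∈ 𝓝 x, (U ∩ B).Infinite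

/-- A space is countably pracompact if it has a dense subset `A` such that every infinite subset
of `A` has an accumulation point in the space. -/
def CountablyPracompact (X : Type*) [TopologicalSpace X] : Prop :=
  ∃ A : Set X, Dense A ∧ ∀ B : Set X, B ⊆ A → B.Infinite → ∃ x : X, IsAccumulationPoint x B

/-- A group with a topology is a paratopological group if multiplication is jointly continuous. -/
def IsParatopologicalGroup (G : Type*) [Group G] [TopologicalSpace G] : Prop :=
  Continuous (fun p : G × G => p.1 * p.2)

open Pool.Agent.H110.PC in
/-- There is a Hausdorff Boolean topological group (so a paratopological group) which is countably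
pracompact while its square is not, and no power of it with at least two factors is. -/
theorem result :
    ∃ (G : Type) (_ : CommGroup G) (_ : TopologicalSpace G),
      IsParatopologicalGroup G ∧ IsTopologicalGroup G ∧ T2Space G ∧ (∀ x : G, x * x = 1) ∧
      CountablyPracompact G ∧ ¬ CountablyPracompact (G × G) ∧
      ∀ (I : Type v) [Nontrivial I], ¬ CountablyPracompact (I → G) := by
  classical
  obtain ⟨lo, u, q, hg, hz⟩ := exists_family
  have hsq : ¬ CP (Gr q × Gr q) := not_cp_sq hg hz
  have hsq' : ¬ CountablyPracompact (Multiplicative (Gr q) × Multiplicative (Gr q)) := by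
    intro h
    apply hsq
    exact CP.image (X := Multiplicative (Gr q) × Multiplicative (Gr q)) h
      (fun p => (Multiplicative.toAdd p.1, Multiplicative.toAdd p.2))
      ((continuous_toAdd.comp continuous_fst).prodMk (continuous_toAdd.comp continuous_snd))
      (fun p => ⟨(Multiplicative.ofAdd p.1, Multiplicative.ofAdd p.2), rfl⟩)
  refine ⟨Multiplicative (Gr q), inferInstance, inferInstance, ?_, inferInstance, ?_, ?_, ?_,
    hsq', ?_⟩
  · exact continuous_mul
  · exact inferInstanceAs (T2Space (Gr q))
  · intro x
    apply Multiplicative.toAdd.injective
    apply Subtype.ext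
    funext Φ
    show ((Multiplicative.toAdd x : Gr q) : E) Φ + ((Multiplicative.toAdd x : Gr q) : E) Φ = 0
    have h2 : ∀ a : ZMod 2, a + a = 0 := by decide
    exact h2 _
  · exact CP.image (cp_Gr hg) Multiplicative.ofAdd continuous_ofAdd
      Multiplicative.ofAdd.surjective
  · intro I _ h
    obtain ⟨i, j, hij⟩ := exists_pair_ne I
    apply hsq'
    refine CP.image (X := I → Multiplicative (Gr q)) h (fun x => (x i, x j))
      ((continuous_apply i).prodMk (continuous_apply j)) ?_
    rintro ⟨a, b⟩
    refine ⟨fun k => if k = i then a else b, ?_⟩
    simp [hij.symm]

end Pool.Agent.Results.MP_6a90e0_al.Pracompact
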